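import Pool.Agent.KS6_1.EqSet.Right
import Pool.Agent.KS6_1.EqSet.Parikh

/-!
# Equality sets of injective morphisms on three letters: the commutative image

On every finite alphabet `S` with at least three letters there are two injective morphisms into the
free monoid on two letters, the first of bounded delay from left to right and the second of bounded
delay from right to left, such that the commutative image of the equality set is not semilinear: it
is the set of all `v` with `v C = v A`, `v A ≤ v B ≤ (v A) ^ 2` and `v B ≡ v A` modulo `2`, for
three letters `A`, `B`, `C` (the number of letters `A` and the sum of the heights of a Dyck path).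
In particular the equality set is neither context-free nor regular.
-/

set_option autoImplicit false

namespace Pool.Agent.Results.MP_195d7c_lc.NotSemilinear

/-- The equality set `E(h, g) = {w ∈ S* | h(w) = g(w)}` of two morphisms of free monoids. -/
def equalitySet {S D : Type} (h g : FreeMonoid S →* FreeMonoid D) : Language S :=
  {w | h (FreeMonoid.ofList w) = g (FreeMonoid.ofList w)}

/-- The morphism `h` is of bounded delay `p` from left to right: for all letters `a`, `b` and all
words `u`, `v` such that `u` has length at least `p`, if `h(au)` is an initial segment of `h(bv)`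
then `a = b`. -/
def BoundedDelay {S D : Type} (p : ℕ) (h : FreeMonoid S →* FreeMonoid D) : Prop :=
  ∀ (a b : S) (u v : FreeMonoid S), p ≤ u.toList.length →
    (h (FreeMonoid.of a * u)).toList <+: (h (FreeMonoid.of b * v)).toList → a = b

/-- The morphism `h` is of bounded delay `p` from right to left: for all letters `a`, `b` and all
words `u`, `v` such that `u` has length at least `p`, if `h(ua)` is a final segment of `h(vb)`
then `a = b`. -/
def BoundedDelayRight {S D : Type} (p : ℕ) (h : FreeMonoid S →* FreeMonoid D) : Prop :=
  ∀ (a b : S) (u v : FreeMonoid S), p ≤ u.toList.length →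
    (h (u * FreeMonoid.of a)).toList <:+ (h (v * FreeMonoid.of b)).toList → a = b

/-- The commutative image (Parikh image) of a language: the vectors of the numbers of occurrences
of the letters in its words. -/
def commImage {S : Type} [DecidableEq S] (L : Language S) : Set (S → ℕ) :=
  {v | ∃ w ∈ L, ∀ X, w.count X = v X}

open Pool.Agent.Results.MP_195d7c_lc.ThreeLetters (ext mor mor_ofList hh gg hh_injective
  gg_injective family not_isRegular_of_overflow) in
open Pool.Agent.Y366.TL Pool.Agent.KS6_1.EqSet in
/-- On every finite alphabet `S` with at least three letters (in particular on three and on four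
letters) there are two injective morphisms `h`, `g` into the free monoid on two letters, `h` of
bounded delay `2` from left to right and `g` of bounded delay `1` from right to left, and three
different letters `A`, `B`, `C` such that the commutative image of the equality set of `h` and `g`
is the set of all `v` with `v C = v A`, `v A ≤ v B ≤ (v A) ^ 2` and `v B ≡ v A` modulo `2`, which
is not semilinear; the equality set is neither context-free nor regular. -/
theorem result : ∀ (S : Type) [Fintype S] [DecidableEq S], 3 ≤ Fintype.card S →
    ∃ (h g : FreeMonoid S →* FreeMonoid Bool) (A B C : S), A ≠ B ∧ A ≠ C ∧ B ≠ C ∧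
      Function.Injective h ∧ Function.Injective g ∧ BoundedDelay 2 h ∧ BoundedDelayRight 1 g ∧
      commImage (equalitySet h g) =
        {v | v C = v A ∧ v A ≤ v B ∧ v B ≤ v A ^ 2 ∧ v B % 2 = v A % 2} ∧
      ¬ IsSemilinearSet (commImage (equalitySet h g)) ∧
      ¬ (equalitySet h g).IsContextFree ∧ ¬ (equalitySet h g).IsRegular := by
  intro S _ _ hS
  obtain ⟨A, B, C, hAB, hAC, hBC⟩ := Fintype.two_lt_card_iff.1 hS
  obtain ⟨c, hc, hc2, hc3⟩ := exists_binary' (Bool ⊕ S)
  have hE : equalitySet (c.comp (mor (hh A B C))) (c.comp (mor (gg A B C))) =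
      ThreeLetters.equalitySet (mor (hh A B C)) (mor (gg A B C)) := by
    ext w
    change c (mor (hh A B C) (FreeMonoid.ofList w)) = c (mor (gg A B C) (FreeMonoid.ofList w)) ↔
      mor (hh A B C) (FreeMonoid.ofList w) = mor (gg A B C) (FreeMonoid.ofList w)
    exact hc.eq_iff
  have hmem : ∀ w : List S, w ∈ ThreeLetters.equalitySet (mor (hh A B C)) (mor (gg A B C)) ↔
      Run A B C 0 0 w 0 0 := by
    intro w
    rw [← mem_iff hAB hAC hBC]
    change mor (hh A B C) (FreeMonoid.ofList w) = mor (gg A B C) (FreeMonoid.ofList w) ↔ _
    rw [mor_ofList, mor_ofList]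
    exact FreeMonoid.ofList.injective.eq_iff
  have hP : commImage (ThreeLetters.equalitySet (mor (hh A B C)) (mor (gg A B C))) =
      {v | v C = v A ∧ v A ≤ v B ∧ v B ≤ v A ^ 2 ∧ v B % 2 = v A % 2} := by
    ext v
    rw [Set.mem_ofPred_eq, ← parikh_run hAB hAC hBC v]
    exact exists_congr fun w => and_congr_left fun _ => hmem w
  refine ⟨c.comp (mor (hh A B C)), c.comp (mor (gg A B C)), A, B, C, hAB, hAC, hBC,
    ?_, ?_, ?_, ?_, ?_, ?_, ?_, ?_⟩
  · exact hc.comp (hh_injective A B C)
  · exact hc.comp (gg_injective A B C)
  · intro x y u v hu hp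
    have h1 := hc2 _ _ hp
    have h2 : FreeMonoid.of x * u = FreeMonoid.ofList (x :: u.toList) := rfl
    have h3 : FreeMonoid.of y * v = FreeMonoid.ofList (y :: v.toList) := rfl
    rw [h2, h3, mor_ofList, mor_ofList] at h1
    exact delay hAB hAC hBC x y _ _ hu h1
  · intro x y u v hu hp
    have h1 := hc3 _ _ hp
    have h2 : u * FreeMonoid.of x = FreeMonoid.ofList (u.toList ++ [x]) := rfl
    have h3 : v * FreeMonoid.of y = FreeMonoid.ofList (v.toList ++ [y]) := rfl
    rw [h2, h3, mor_ofList, mor_ofList] at h1
    exact delay_gg hAB hAC hBC x y _ _ hu h1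
  · rw [hE, hP]
  · rw [hE, hP]
    exact not_semilinear hAB hBC
  · rw [hE]
    exact not_contextFree hAB hAC hBC
  · rw [hE]
    refine not_isRegular_of_overflow (hh A B C) (gg A B C) ?_
    refine family (A := A) (B := B) (C := C) (a := ThreeLetters.a S) (b := ThreeLetters.b S)
      ?_ ?_ ?_ ?_ ?_ ?_
    · simp [hh]
    · simp [hh, hAB.symm]
    · simp [hh, hAC.symm, hBC.symm]
    · simp [gg]
    · simp [gg, hAB.symm]
    · simp [gg, hAC.symm, hBC.symm]

end Pool.Agent.Results.MP_195d7c_lc.NotSemilinear
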